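import Pool.Agent.CritDens.Density

/-!
# Dense critical graphs of arbitrarily large odd girth

For every `ℓ` there are arbitrarily large `k`-critical graphs of odd girth `> ℓ` on `n` vertices,
without isolated vertices, having more than `c n²` edges, where `c` is any constant with
* `c < 1/16` if `k ≥ 4`,
* `c < 1/8` if `k ≥ 5`,
* `c < 1/4` if `k ≥ 6`.

In the notation of the problem: `c_{ℓ,4} ≥ 1/16`, `c_{ℓ,5} ≥ 1/8` and `c_{ℓ,k} ≥ 1/4` for `k ≥ 6`,
for all `ℓ ≥ 3`.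
-/

set_option autoImplicit false

namespace Pool.Agent.Results.MP_7b15fe_co.DenseCriticalOddGirth

/-- `G` is `k`-critical: its chromatic number is `k`, and deleting any single edge leaves a
properly `(k-1)`-colourable graph. -/
def IsCritical {n : ℕ} (k : ℕ) (G : SimpleGraph (Fin n)) : Prop :=
  G.chromaticNumber = (k : ℕ∞) ∧ ∀ e ∈ G.edgeSet, (G.deleteEdges {e}).Colorable (k - 1)

/-- Every odd cycle of `G` has length greater than `ℓ`. -/
def OddGirthGT {n : ℕ} (ℓ : ℕ) (G : SimpleGraph (Fin n)) : Prop :=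
  ∀ (v : Fin n) (p : G.Walk v v), p.IsCycle → Odd p.length → ℓ < p.length

/-- For all `ℓ` and `k` and all real `c` such that `k ≥ 4` and `c < 1/16`, or `k ≥ 5` and
`c < 1/8`, or `k ≥ 6` and `c < 1/4`, there are arbitrarily large `k`-critical graphs without
isolated vertices, of odd girth `> ℓ`, with more than `c n²` edges (`n` the number of
vertices). -/
theorem result (ℓ k : ℕ) (c : ℝ)
    (h : (4 ≤ k ∧ c < 1 / 16) ∨ (5 ≤ k ∧ c < 1 / 8) ∨ (6 ≤ k ∧ c < 1 / 4)) (N : ℕ) :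
    ∃ n : ℕ, N ≤ n ∧ ∃ G : SimpleGraph (Fin n),
      IsCritical k G ∧ (∀ v : Fin n, ∃ w : Fin n, G.Adj v w) ∧ OddGirthGT ℓ G ∧
      c * (n : ℝ) ^ 2 < (Nat.card G.edgeSet : ℝ) := by
  obtain ⟨n, rfl⟩ : ∃ n, k = n + 1 := ⟨k - 1, by omega⟩
  have key : ∃ m : ℕ, N ≤ m ∧ ∃ H : SimpleGraph (Fin m),
      H.chromaticNumber = ((n + 1 : ℕ) : ℕ∞) ∧
      (∀ e ∈ H.edgeSet, (H.deleteEdges {e}).Colorable n) ∧
      (∀ v, ∃ w, H.Adj v w) ∧
      (∀ (v : Fin m) (p : H.Walk v v), Odd p.length → ℓ + 1 ≤ p.length) ∧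
      c * (m : ℝ) ^ 2 < (Nat.card H.edgeSet : ℝ) := by
    rcases h with ⟨hk, hc⟩ | ⟨hk, hc⟩ | ⟨hk, hc⟩
    · exact CritDens.density_four (by omega) (ℓ + 1) c hc N
    · exact CritDens.density_five (by omega) (ℓ + 1) c hc N
    · exact CritDens.density_six (by omega) (ℓ + 1) c hc N
  obtain ⟨m, hm, H, h1, h2, h3, h4, h5⟩ := key
  exact ⟨m, hm, H, ⟨h1, h2⟩, h3, fun v p _ hp => h4 v p hp, h5⟩

end Pool.Agent.Results.MP_7b15fe_co.DenseCriticalOddGirth
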